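import Mathlib

/-!
# Hilbert series of homogeneous ideals

`hf 𝒜 I n = dim 𝒜 n - dim (𝒜 n ⊓ I)`, the Hilbert function of `S / I`, and its behaviour when one
adds a homogeneous element to `I`.
-/

set_option autoImplicit false

namespace Pool.Agent.P8H35.HS

open DirectSum

variable {k S : Type*} [Field k] [CommRing S] [Algebra k S] (𝒜 : ℕ → Submodule k S)
  [GradedAlgebra 𝒜]

/-- the colon ideal `I : x` -/
def cl (I : Ideal S) (x : S) : Ideal S := Submodule.comap (LinearMap.mul S S x) I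

theorem mem_cl {I : Ideal S} {x y : S} : y ∈ cl I x ↔ x * y ∈ I := Iff.rfl

/-- the Hilbert function of `S / I` -/
noncomputable def hf (I : Ideal S) (n : ℕ) : ℤ :=
  (Module.finrank k (𝒜 n) : ℤ) - Module.finrank k (𝒜 n ⊓ I.restrictScalars k : Submodule k S)

/-- the Hilbert series of `S / I` -/
noncomputable def hs (I : Ideal S) : PowerSeries ℤ := PowerSeries.mk (hf 𝒜 I)

variable {𝒜}

theorem cl_homogeneous {I : Ideal S} (hI : I.IsHomogeneous 𝒜) {m : ℕ} {x : S} (hx : x ∈ 𝒜 m) :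
    (cl I x).IsHomogeneous 𝒜 := by
  intro i y hy
  rw [mem_cl] at hy ⊢
  rw [← coe_decompose_mul_add_of_left_mem 𝒜 hx]
  exact hI _ hy

theorem span_homogeneous {m : ℕ} {x : S} (hx : x ∈ 𝒜 m) :
    (Ideal.span {x}).IsHomogeneous 𝒜 := by
  apply Ideal.homogeneous_span
  rintro _ rfl
  exact ⟨m, hx⟩

/-- rank and nullity on a subspace -/
theorem finrank_map_add {V W : Type*} [AddCommGroup V] [Module k V] [AddCommGroup W] [Module k W]
    (f : V →ₗ[k] W) (U : Submodule k V) [FiniteDimensional k U] :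
    Module.finrank k (U.map f) + Module.finrank k (U ⊓ LinearMap.ker f : Submodule k V)
      = Module.finrank k U := by
  have h1 := LinearMap.finrank_range_add_finrank_ker (f.domRestrict U)
  rw [← h1]
  congr 1
  · have h2 : LinearMap.range (f.domRestrict U) = U.map f := by
      rw [LinearMap.domRestrict, LinearMap.range_comp, Submodule.range_subtype]
    rw [h2]
  · have h2 : (LinearMap.ker (f.domRestrict U)).map U.subtype = U ⊓ LinearMap.ker f := by
      rw [LinearMap.domRestrict, LinearMap.ker_comp, Submodule.map_comap_subtype]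
    rw [← h2]
    exact LinearEquiv.finrank_eq
      (Submodule.equivMapOfInjective U.subtype (Submodule.injective_subtype U) _).symm

theorem comp_self {n : ℕ} {x : S} (hx : x ∈ 𝒜 n) : ((decompose 𝒜 x n : 𝒜 n) : S) = x :=
  decompose_of_mem_same 𝒜 hx

/-- adding a homogeneous element, degrees at least its degree -/
theorem hf_sup (hfin : ∀ n, FiniteDimensional k (𝒜 n)) {I : Ideal S} (hI : I.IsHomogeneous 𝒜)
    {m : ℕ} {x : S} (hx : x ∈ 𝒜 m) (n : ℕ) :
    hf 𝒜 (I ⊔ Ideal.span {x}) (m + n) = hf 𝒜 I (m + n) - hf 𝒜 (cl I x) n := by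
  have := hfin
  set A : Submodule k S := 𝒜 (m + n) ⊓ I.restrictScalars k with hA
  set f : S →ₗ[k] S := LinearMap.mulLeft k x with hf'
  set C : Submodule k S := 𝒜 n ⊓ (cl I x).restrictScalars k with hC
  set B : Submodule k S := (𝒜 n).map f with hB
  have hAfin : FiniteDimensional k A := Submodule.finiteDimensional_of_le inf_le_left
  have hCfin : FiniteDimensional k C := Submodule.finiteDimensional_of_le inf_le_left
  have h1 : 𝒜 (m + n) ⊓ (I ⊔ Ideal.span {x}).restrictScalars k = A ⊔ B := by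
    apply le_antisymm
    · rintro w ⟨hw1, hw2⟩
      rw [SetLike.mem_coe, Submodule.restrictScalars_mem, Submodule.mem_sup] at hw2
      obtain ⟨i, hi, z, hz, rfl⟩ := hw2
      obtain ⟨s, rfl⟩ := Ideal.mem_span_singleton'.1 hz
      rw [← comp_self (𝒜 := 𝒜) hw1, decompose_add, DirectSum.add_apply, Submodule.coe_add, mul_comm s x,
        coe_decompose_mul_add_of_left_mem 𝒜 hx]
      apply Submodule.add_mem_sup
      · exact ⟨(decompose 𝒜 i (m + n)).2, hI _ hi⟩
      · exact ⟨_, (decompose 𝒜 s n).2, rfl⟩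
    · apply sup_le
      · exact inf_le_inf le_rfl (fun y hy => Submodule.mem_sup_left hy)
      · rintro _ ⟨y, hy, rfl⟩
        refine ⟨SetLike.mul_mem_graded hx hy, ?_⟩
        exact Submodule.mem_sup_right (Ideal.mul_mem_right _ _ (Ideal.mem_span_singleton_self x))
  have h2 : A ⊓ B = C.map f := by
    apply le_antisymm
    · rintro _ ⟨⟨-, hw⟩, ⟨y, hy, rfl⟩⟩
      exact ⟨y, ⟨hy, hw⟩, rfl⟩
    · rintro _ ⟨y, ⟨hy1, hy2⟩, rfl⟩
      exact ⟨⟨SetLike.mul_mem_graded hx hy1, hy2⟩, ⟨y, hy1, rfl⟩⟩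
  have h3 := Submodule.finrank_sup_add_finrank_inf_eq A B
  have h4 := finrank_map_add f (𝒜 n)
  have h5 := finrank_map_add f C
  have h6 : C ⊓ LinearMap.ker f = 𝒜 n ⊓ LinearMap.ker f := by
    apply le_antisymm
    · exact inf_le_inf inf_le_left le_rfl
    · rintro y ⟨hy1, hy2⟩
      refine ⟨⟨hy1, ?_⟩, hy2⟩
      have h7 : x * y = 0 := hy2
      change x * y ∈ I
      rw [h7]
      exact zero_mem _
  rw [h6] at h5
  rw [h2] at h3
  unfold hf
  rw [h1]
  push_cast [← h3, ← h4, ← h5]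
  have h3' : (Module.finrank k (A ⊔ B : Submodule k S) : ℤ) + Module.finrank k (C.map f)
      = Module.finrank k A + Module.finrank k B := by exact_mod_cast h3
  linarith

/-- adding a homogeneous element, degrees smaller than its degree -/
theorem hf_sup_of_lt {I : Ideal S} (hI : I.IsHomogeneous 𝒜)
    {m : ℕ} {x : S} (hx : x ∈ 𝒜 m) {n : ℕ} (hn : n < m) :
    hf 𝒜 (I ⊔ Ideal.span {x}) n = hf 𝒜 I n := by
  have h1 : 𝒜 n ⊓ (I ⊔ Ideal.span {x}).restrictScalars k = 𝒜 n ⊓ I.restrictScalars k := by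
    apply le_antisymm
    · rintro w ⟨hw1, hw2⟩
      rw [SetLike.mem_coe, Submodule.restrictScalars_mem, Submodule.mem_sup] at hw2
      obtain ⟨i, hi, z, hz, rfl⟩ := hw2
      obtain ⟨s, rfl⟩ := Ideal.mem_span_singleton'.1 hz
      refine ⟨hw1, ?_⟩
      have h2 := comp_self (𝒜 := 𝒜) hw1
      rw [decompose_add, DirectSum.add_apply, Submodule.coe_add, mul_comm s x,
        coe_decompose_mul_of_left_mem_of_not_le 𝒜 hx (not_le.2 hn), add_zero, mul_comm x s] at h2
      rw [← h2]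
      exact hI _ hi
    · exact inf_le_inf le_rfl (fun y hy => Submodule.mem_sup_left hy)
  unfold hf
  rw [h1]

/-- the exact sequence `0 → S/(I : x) (-m) → S/I → S/(I, x) → 0` -/
theorem hs_sup (hfin : ∀ n, FiniteDimensional k (𝒜 n)) {I : Ideal S} (hI : I.IsHomogeneous 𝒜)
    {m : ℕ} {x : S} (hx : x ∈ 𝒜 m) :
    hs 𝒜 (I ⊔ Ideal.span {x}) = hs 𝒜 I - PowerSeries.X ^ m * hs 𝒜 (cl I x) := by
  ext n
  rw [map_sub, PowerSeries.coeff_X_pow_mul']
  simp only [hs, PowerSeries.coeff_mk]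
  split_ifs with h
  · obtain ⟨d, rfl⟩ := Nat.exists_eq_add_of_le h
    rw [Nat.add_sub_cancel_left]
    exact hf_sup hfin hI hx d
  · rw [sub_zero]
    exact hf_sup_of_lt hI hx (not_le.1 h)

end Pool.Agent.P8H35.HS
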