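import Mathlib

/-!
# Polynomials: dividing the numerator

`F` a power series, `(1 - X) ^ N * F` a polynomial and `∏ (1 - X ^ e i) * F = Q` with `Q`
palindromic and `Q(1) ≠ 0`. Then `(1 - X) ^ D * F` is a palindromic polynomial.
-/

set_option autoImplicit false

namespace Pool.Agent.P8H35.HS

open Polynomial

theorem one_sub_ne : (1 - X : ℤ[X]) ≠ 0 := by
  intro h
  have h1 := congrArg (eval 0) h
  simp at h1

theorem prime_one_sub : Prime (1 - X : ℤ[X]) := by
  have h1 := (prime_X_sub_C (1 : ℤ)).neg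
  rwa [neg_sub, C_1] at h1

theorem coe_one_sub' : ((1 - X : ℤ[X]) : PowerSeries ℤ) = 1 - PowerSeries.X := by simp

/-- `∏ (1 + X + ... + X ^ (e i - 1))` -/
noncomputable def gprod {D : ℕ} (e : Fin D → ℕ) : ℤ[X] :=
  ∏ i, ∑ j ∈ Finset.range (e i), X ^ j

theorem mul_gprod {D : ℕ} (e : Fin D → ℕ) :
    (1 - X) ^ D * gprod e = ∏ i, (1 - X ^ e i : ℤ[X]) := by
  have h1 : (1 - X : ℤ[X]) ^ D = ∏ _i : Fin D, (1 - X : ℤ[X]) := by
    rw [Finset.prod_const, Finset.card_univ, Fintype.card_fin]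
  rw [gprod, h1, ← Finset.prod_mul_distrib]
  exact Finset.prod_congr rfl fun i _ => mul_neg_geom_sum _ _

theorem eval_gprod {D : ℕ} (e : Fin D → ℕ) : eval 1 (gprod e) = ∏ i, (e i : ℤ) := by
  rw [gprod, eval_prod]
  refine Finset.prod_congr rfl fun i _ => ?_
  rw [eval_finsetSum]
  simp

/-- `∏ (X ^ e i - 1)` -/
noncomputable def uprod {D : ℕ} (e : Fin D → ℕ) : ℤ[X] := ∏ i, (X ^ e i - C 1)

theorem uprod_eq {D : ℕ} (e : Fin D → ℕ) :
    uprod e = C ((-1) ^ D) * ∏ i, (1 - X ^ e i : ℤ[X]) := by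
  have h1 : (C ((-1) ^ D) : ℤ[X]) = ∏ _i : Fin D, (C (-1) : ℤ[X]) := by
    rw [Finset.prod_const, Finset.card_univ, Fintype.card_fin, C_pow]
  rw [uprod, h1, ← Finset.prod_mul_distrib]
  refine Finset.prod_congr rfl fun i _ => ?_
  simp

theorem reverse_u {e : ℕ} :
    (X ^ e - C 1 : ℤ[X]).reverse = C (-1) * (X ^ e - C 1) := by
  rw [reverse, natDegree_X_pow_sub_C, reflect_sub]
  have h1 : reflect e (X ^ e : ℤ[X]) = 1 := by
    rw [← one_mul (X ^ e), ← C_1, reflect_C_mul_X_pow, revAt_le le_rfl]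
    simp
  have h2 : reflect e (C 1 : ℤ[X]) = X ^ e := by
    rw [reflect_C]
    simp
  rw [h1, h2]
  simp

theorem reverse_uprod {D : ℕ} (e : Fin D → ℕ) :
    (uprod e).reverse = C ((-1) ^ D) * uprod e := by
  have h1 : ∀ s : Finset (Fin D), (∏ i ∈ s, (X ^ e i - C 1 : ℤ[X])).reverse
      = ∏ i ∈ s, (C (-1) * (X ^ e i - C 1)) := by
    intro s
    induction s using Finset.induction_on with
    | empty => rw [Finset.prod_empty, Finset.prod_empty, ← C_1, reverse_C]
    | insert i s hi ih =>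
      rw [Finset.prod_insert hi, Finset.prod_insert hi, reverse_mul_of_domain, ih,
        reverse_u]
  have h2 : (C ((-1) ^ D) : ℤ[X]) = ∏ _i : Fin D, (C (-1) : ℤ[X]) := by
    rw [Finset.prod_const, Finset.card_univ, Fintype.card_fin, C_pow]
  rw [uprod, h1, h2, ← Finset.prod_mul_distrib]

theorem uprod_ne {D : ℕ} (e : Fin D → ℕ) (he : ∀ i, 0 < e i) : uprod e ≠ 0 := by
  rw [uprod, Finset.prod_ne_zero_iff]
  intro i _ h
  have h1 := congrArg natDegree h
  rw [natDegree_X_pow_sub_C] at h1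
  simp at h1
  exact absurd h1 (he i).ne'

theorem natDegree_uprod {D : ℕ} (e : Fin D → ℕ) (he : ∀ i, 0 < e i) :
    (uprod e).natDegree = ∑ i, e i := by
  rw [uprod, natDegree_prod]
  · exact Finset.sum_congr rfl fun i _ => natDegree_X_pow_sub_C
  · intro i _ h
    have h1 := congrArg natDegree h
    rw [natDegree_X_pow_sub_C] at h1
    simp at h1
    exact absurd h1 (he i).ne'

/-- the numerator -/
theorem exists_numerator {F : PowerSeries ℤ} {D : ℕ} (e : Fin D → ℕ) (he : ∀ i, 0 < e i)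
    (hF : ∃ (N : ℕ) (p : ℤ[X]), (1 - PowerSeries.X) ^ N * F = (p : PowerSeries ℤ))
    (Q : ℤ[X]) (hQ : (∏ i, (1 - PowerSeries.X ^ e i)) * F = (Q : PowerSeries ℤ))
    (hrev : Q.reverse = Q) (hQ1 : 0 < eval 1 Q) (hQ0 : Q.coeff 0 = 1) :
    ∃ h : ℤ[X], (1 - PowerSeries.X) ^ D * F = (h : PowerSeries ℤ) ∧ h.reverse = h ∧
      h.coeff 0 = 1 ∧ 0 < eval 1 h ∧ h.natDegree + ∑ i, e i = Q.natDegree + D := by
  obtain ⟨N, p, hp⟩ := hF
  have hgc : ((gprod e : ℤ[X]) : PowerSeries ℤ) * ((1 - PowerSeries.X) ^ D)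
      = ∏ i, (1 - PowerSeries.X ^ e i) := by
    have h1 := congrArg (fun q : ℤ[X] => (q : PowerSeries ℤ)) (mul_gprod e)
    simp only [Polynomial.coe_mul, Polynomial.coe_pow, coe_one_sub'] at h1
    rw [mul_comm, h1]
    have h2 : ∀ s : Finset (Fin D), ((∏ i ∈ s, (1 - X ^ e i : ℤ[X]) : ℤ[X]) : PowerSeries ℤ)
        = ∏ i ∈ s, (1 - PowerSeries.X ^ e i) := by
      intro s
      induction s using Finset.induction_on with
      | empty => simp
      | insert i s hi ih =>
        rw [Finset.prod_insert hi, Finset.prod_insert hi, Polynomial.coe_mul, ih,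
          Polynomial.coe_sub, Polynomial.coe_pow, Polynomial.coe_one, Polynomial.coe_X]
    exact h2 _
  have hprodpos : 0 < ∏ i, (e i : ℤ) :=
    Finset.prod_pos fun i _ => by exact_mod_cast he i
  have h1 : (1 - X) ^ D * gprod e * p = (1 - X) ^ N * Q := by
    apply Polynomial.coe_injective
    rw [Polynomial.coe_mul, Polynomial.coe_mul, Polynomial.coe_mul, Polynomial.coe_pow,
      Polynomial.coe_pow, coe_one_sub', ← hp, ← hQ, ← hgc]
    ring
  have hnd : ¬ (1 - X : ℤ[X]) ∣ gprod e := by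
    rintro ⟨q, hq⟩
    have h2 := congrArg (eval 1) hq
    rw [eval_gprod, eval_mul] at h2
    simp at h2
    rw [h2] at hprodpos
    exact lt_irrefl _ hprodpos
  have h2 : (1 - X : ℤ[X]) ^ N ∣ (1 - X) ^ D * p := by
    apply prime_one_sub.pow_dvd_of_dvd_mul_right N hnd
    exact ⟨Q, by rw [← h1]; ring⟩
  obtain ⟨h, hh⟩ := h2
  have hne : ((1 : PowerSeries ℤ) - PowerSeries.X) ≠ 0 := by
    rw [← coe_one_sub']
    intro h3
    have h4 : ((1 - X : ℤ[X]) : PowerSeries ℤ) = ((0 : ℤ[X]) : PowerSeries ℤ) := by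
      rw [h3]; simp
    exact one_sub_ne (Polynomial.coe_injective _ h4)
  have h3 : (1 - PowerSeries.X) ^ D * F = (h : PowerSeries ℤ) := by
    have h4 := congrArg (fun q : ℤ[X] => (q : PowerSeries ℤ)) hh
    simp only [Polynomial.coe_mul, Polynomial.coe_pow, coe_one_sub'] at h4
    rw [← hp] at h4
    apply mul_left_cancel₀ (pow_ne_zero N hne)
    rw [← h4]
    ring
  have h4 : gprod e * h = Q := by
    apply Polynomial.coe_injective
    rw [Polynomial.coe_mul, ← h3, ← hQ, ← hgc]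
    ring
  have h5 : uprod e * h = C ((-1) ^ D) * (1 - X) ^ D * Q := by
    rw [uprod_eq, ← mul_gprod, ← h4]
    ring
  have hQne : Q ≠ 0 := by
    rintro rfl
    simp at hQ0
  have hhne : h ≠ 0 := by
    rintro rfl
    rw [mul_zero] at h4
    exact hQne h4.symm
  have h6 : (C ((-1) ^ D) * (1 - X) ^ D : ℤ[X]) = uprod (D := D) (fun _ => 1) := by
    rw [uprod, Finset.prod_const, Finset.card_univ, Fintype.card_fin, C_pow, ← mul_pow]
    congr 1
    simp
  rw [h6] at h5
  have hC : (C ((-1) ^ D) : ℤ[X]) ≠ 0 := by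
    rw [Ne, C_eq_zero]
    exact pow_ne_zero _ (by norm_num)
  refine ⟨h, h3, ?_, ?_, ?_, ?_⟩
  · have h7 := congrArg reverse h5
    rw [reverse_mul_of_domain, reverse_mul_of_domain, reverse_uprod e,
      reverse_uprod _, hrev, mul_assoc, mul_assoc, ← h5] at h7
    have h8 := mul_left_cancel₀ hC h7
    exact mul_left_cancel₀ (uprod_ne e he) h8
  · have h7 := congrArg (fun q : ℤ[X] => q.coeff 0) h4
    simp only [mul_coeff_zero] at h7
    have h8 : (gprod e).coeff 0 = 1 := by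
      rw [coeff_zero_eq_eval_zero, gprod, eval_prod]
      apply Finset.prod_eq_one
      intro i _
      rw [eval_finsetSum]
      have h9 : ∀ j ∈ Finset.range (e i), eval (0 : ℤ) (X ^ j) = if j = 0 then 1 else 0 := by
        intro j _
        rw [eval_pow, eval_X]
        split_ifs with h0
        · rw [h0, pow_zero]
        · exact zero_pow h0
      rw [Finset.sum_congr rfl h9, Finset.sum_ite_eq' (Finset.range (e i)) 0 (fun _ => (1 : ℤ)),
        if_pos (Finset.mem_range.2 (he i))]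
    rw [h8, one_mul, hQ0] at h7
    exact h7
  · have h7 := congrArg (eval 1) h4
    rw [eval_mul, eval_gprod] at h7
    rw [← h7] at hQ1
    exact (pos_iff_pos_of_mul_pos hQ1).1 hprodpos
  · have h7 := congrArg natDegree h5
    rw [natDegree_mul (uprod_ne e he) hhne, natDegree_mul (uprod_ne _ (fun _ => Nat.one_pos)) hQne,
      natDegree_uprod e he, natDegree_uprod _ (fun _ => Nat.one_pos)] at h7
    simp at h7
    omega

end Pool.Agent.P8H35.HS
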