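import Pool.Agent.P8H35.HS.Symmetry
import Pool.Agent.P8H35.HS.Poly

/-!
# The numerator of the Hilbert series of a Gorenstein section ring
-/

set_option autoImplicit false

namespace Pool.Agent.P8H35.HS

open DirectSum

variable {k S : Type*} [Field k] [CommRing S] [Algebra k S] {𝒜 : ℕ → Submodule k S}
  [GradedAlgebra 𝒜]

theorem comp_finset_sum {ι : Type*} (s : Finset ι) (f : ι → S) (n : ℕ) :
    ((decompose 𝒜 (∑ i ∈ s, f i) n : 𝒜 n) : S) = ∑ i ∈ s, ((decompose 𝒜 (f i) n : 𝒜 n) : S) := by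
  classical
  induction s using Finset.induction_on with
  | empty => simp
  | insert i s hi ih =>
    rw [Finset.sum_insert hi, Finset.sum_insert hi, decompose_add, DirectSum.add_apply,
      Submodule.coe_add, ih]

/-- the graded pieces of a Noetherian graded algebra with `S₀ = k` are finite-dimensional -/
theorem finite_pieces [IsNoetherianRing S] (h0 : ∀ x ∈ 𝒜 0, ∃ c : k, x = algebraMap k S c)
    (n : ℕ) : FiniteDimensional k (𝒜 n) := by
  have h1 : (Ideal.span ((𝒜 n : Submodule k S) : Set S)).FG := IsNoetherian.noetherian _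
  obtain ⟨T, hT, hspan⟩ := (Submodule.fg_span_iff_fg_span_finset_subset _).1 h1
  have h2 : 𝒜 n ≤ Submodule.span k (T : Set S) := by
    intro x hx
    have h3 : x ∈ Submodule.span S (T : Set S) := by
      rw [← hspan]
      exact Submodule.subset_span hx
    obtain ⟨f, hf, hfx⟩ := Submodule.mem_span_finset.1 h3
    have h4 : x = ∑ t ∈ T, ((decompose 𝒜 (f t) 0 : 𝒜 0) : S) * t := by
      have h5 := comp_self hx
      rw [← hfx, comp_finset_sum] at h5
      rw [← hfx, ← h5]
      apply Finset.sum_congr rfl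
      intro t ht
      have h6 : t ∈ 𝒜 n := hT ht
      rw [smul_eq_mul, mul_comm (f t) t]
      have h7 := coe_decompose_mul_add_of_left_mem 𝒜 (b := f t) (j := 0) h6
      rw [add_zero] at h7
      rw [h7, mul_comm]
    rw [h4]
    apply Submodule.sum_mem
    intro t ht
    obtain ⟨c, hc⟩ := h0 _ (decompose 𝒜 (f t) 0).2
    rw [hc, ← Algebra.smul_def]
    exact Submodule.smul_mem _ _ (Submodule.subset_span ht)
  have h3 : FiniteDimensional k (Submodule.span k (T : Set S)) := by
    exact FiniteDimensional.span_finset k T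
  exact Submodule.finiteDimensional_of_le h2

/-- the Hilbert series modulo a regular sequence -/
theorem hs_regular (hfin : ∀ n, FiniteDimensional k (𝒜 n)) : ∀ (D : ℕ) (θ : Fin D → S)
    (e : Fin D → ℕ), (∀ i, θ i ∈ 𝒜 (e i)) →
    RingTheory.Sequence.IsWeaklyRegular S (List.ofFn θ) →
    (Ideal.ofList (List.ofFn θ)).IsHomogeneous 𝒜 ∧
    hs 𝒜 (Ideal.ofList (List.ofFn θ)) = (∏ i, (1 - PowerSeries.X ^ e i)) * hs 𝒜 ⊥ := by
  intro D
  induction D with
  | zero =>
    intro θ e _ _
    simp only [List.ofFn_zero, Ideal.ofList_nil, Finset.univ_eq_empty, Finset.prod_empty, one_mul,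
      and_true]
    exact Ideal.IsHomogeneous.bot 𝒜
  | succ D ih =>
    intro θ e hθ hreg
    rw [List.ofFn_succ', List.concat_eq_append] at hreg ⊢
    rw [RingTheory.Sequence.isWeaklyRegular_append_iff,
      RingTheory.Sequence.isWeaklyRegular_singleton_iff,
      isSMulRegular_quotient_iff_mem_of_smul_mem] at hreg
    obtain ⟨hhom, hhs⟩ := ih (fun i => θ i.castSucc) (fun i => e i.castSucc)
      (fun i => hθ _) hreg.1
    rw [Ideal.ofList_append, Ideal.ofList_singleton]
    refine ⟨hhom.sup (span_homogeneous (hθ (Fin.last D))), ?_⟩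
    rw [hs_sup hfin hhom (hθ (Fin.last D)), Fin.prod_univ_castSucc]
    have h1 : cl (Ideal.ofList (List.ofFn fun i => θ (Fin.castSucc i))) (θ (Fin.last D))
        = Ideal.ofList (List.ofFn fun i => θ (Fin.castSucc i)) := by
      ext y
      rw [mem_cl]
      refine ⟨fun h => ?_, fun h => Ideal.mul_mem_left _ _ h⟩
      have h2 := hreg.2 y
      rw [smul_eq_mul, smul_eq_mul, Ideal.mul_top] at h2
      exact h2 h
    rw [h1, hhs]
    ring

theorem ofList_ofFn {D : ℕ} (θ : Fin D → S) :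
    Ideal.ofList (List.ofFn θ) = Ideal.span (Set.range θ) := by
  unfold Ideal.ofList
  congr 1
  ext x
  simp [List.mem_ofFn]

theorem hf_bot (n : ℕ) : hf 𝒜 (⊥ : Ideal S) n = Module.finrank k (𝒜 n) := by
  unfold hf
  have h1 : 𝒜 n ⊓ (⊥ : Ideal S).restrictScalars k = ⊥ := by
    rw [Submodule.restrictScalars_bot, inf_bot_eq]
  rw [h1]
  simp

/-- the numerator of the Hilbert series: a palindromic polynomial of degree `a + D` -/
theorem numerator [IsNoetherianRing S] (h0 : ∀ x ∈ 𝒜 0, ∃ c : k, x = algebraMap k S c)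
    (hinv : ∀ P : Ideal S, P.IsPrime → P.IsHomogeneous 𝒜 → (∃ n, 0 < n ∧ ∃ x ∈ 𝒜 n, x ∉ P) →
      ∃ n, (∃ x ∈ 𝒜 n, x ∉ P) ∧ ∃ x ∈ 𝒜 (n + 1), x ∉ P)
    {D : ℕ} (θ : Fin D → S) (e : Fin D → ℕ) (he : ∀ i, 0 < e i) (hθ : ∀ i, θ i ∈ 𝒜 (e i))
    (hreg : RingTheory.Sequence.IsWeaklyRegular S (List.ofFn θ)) {N : ℕ}
    (hN : ∀ n, N ≤ n → ∀ x ∈ 𝒜 n, x ∈ Ideal.span (Set.range θ)) {σ : ℕ} {z : S} (hz : z ∈ 𝒜 σ)
    (hzJ : z ∉ Ideal.span (Set.range θ))
    (hsoc : ∀ y : S, (∀ m, 0 < m → ∀ x ∈ 𝒜 m, x * y ∈ Ideal.span (Set.range θ)) →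
      ∃ c : k, y - c • z ∈ Ideal.span (Set.range θ)) :
    ∃ h : Polynomial ℤ, (1 - PowerSeries.X) ^ D *
        PowerSeries.mk (fun n => (Module.finrank k (𝒜 n) : ℤ)) = (h : PowerSeries ℤ) ∧
      h.reverse = h ∧ h.coeff 0 = 1 ∧ 0 < Polynomial.eval 1 h ∧
      h.natDegree + ∑ i, e i = σ + D := by
  have hfin : ∀ n, FiniteDimensional k (𝒜 n) := finite_pieces h0
  obtain ⟨hhom, hhs⟩ := hs_regular hfin D θ e hθ hreg
  rw [ofList_ofFn] at hhom hhs
  set J : Ideal S := Ideal.span (Set.range θ) with hJ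
  obtain ⟨hsym, hzero⟩ := hf_symm hfin hhom hN hz hzJ hsoc
  have hJtop : J ≠ ⊤ := fun h => hzJ (by rw [h]; trivial)
  -- degree zero
  have hJ0 : hf 𝒜 J 0 = 1 := by
    unfold hf
    have h1 : 𝒜 0 ⊓ J.restrictScalars k = ⊥ := by
      rw [eq_bot_iff]
      rintro x ⟨hx, hxJ⟩
      obtain ⟨c, rfl⟩ := h0 x hx
      by_cases hc : c = 0
      · rw [hc, map_zero]; exact Submodule.zero_mem _
      · exfalso
        apply hJtop
        apply Ideal.eq_top_of_isUnit_mem _ hxJ
        exact (IsUnit.mk0 c hc).map _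
    have h2 : Module.finrank k (𝒜 0) = 1 := by
      have h3 : 𝒜 0 = Submodule.span k {(1 : S)} := by
        apply le_antisymm
        · intro x hx
          obtain ⟨c, rfl⟩ := h0 x hx
          rw [Submodule.mem_span_singleton]
          exact ⟨c, by rw [Algebra.smul_def, mul_one]⟩
        · rw [Submodule.span_singleton_le_iff_mem]
          exact SetLike.one_mem_graded 𝒜
      rw [h3]
      apply finrank_span_singleton
      intro h4
      apply hJtop
      rw [Ideal.eq_top_iff_one, h4]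
      exact zero_mem _
    rw [h1, h2]
    simp
  have hσ1 : hf 𝒜 J σ = 1 := by
    rw [hsym σ le_rfl, Nat.sub_self, hJ0]
  set Q : Polynomial ℤ := (hs 𝒜 J).trunc (σ + 1) with hQ
  have hQc : ∀ i, Q.coeff i = hf 𝒜 J i := by
    intro i
    rw [hQ, PowerSeries.coeff_trunc]
    split_ifs with h
    · rw [hs, PowerSeries.coeff_mk]
    · exact (hzero i (by omega)).symm
  have hQd : Q.natDegree = σ := by
    apply le_antisymm
    · rw [Polynomial.natDegree_le_iff_coeff_eq_zero]
      intro i hi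
      rw [hQc, hzero i hi]
    · apply Polynomial.le_natDegree_of_ne_zero
      rw [hQc, hσ1]
      exact one_ne_zero
  have hQcoe : (Q : PowerSeries ℤ) = hs 𝒜 J := by
    ext n
    rw [Polynomial.coeff_coe, hQc, hs, PowerSeries.coeff_mk]
  have hbot : hs 𝒜 (⊥ : Ideal S) = PowerSeries.mk (fun n => (Module.finrank k (𝒜 n) : ℤ)) := by
    ext n
    rw [hs, PowerSeries.coeff_mk, PowerSeries.coeff_mk, hf_bot]
  rw [← hbot]
  have hgood := good_hs hfin hinv ⊥ (Ideal.IsHomogeneous.bot 𝒜)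
  have := exists_numerator e he hgood Q (by rw [← hhs, hQcoe]) ?_ ?_ ?_
  · rwa [hQd] at this
  · ext i
    rw [Polynomial.coeff_reverse, hQd, hQc, hQc]
    by_cases hi : i ≤ σ
    · rw [Polynomial.revAt_le hi, ← hsym i hi]
    · rw [Polynomial.revAt_eq_self_of_lt (not_le.1 hi)]
  · rw [Polynomial.eval_eq_sum_range]
    apply Finset.sum_pos'
    · intro i _
      rw [hQc, one_pow, mul_one]
      exact hf_nonneg hfin J i
    · refine ⟨0, Finset.mem_range.2 (Nat.succ_pos _), ?_⟩
      rw [hQc, hJ0]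
      norm_num
  · rw [hQc, hJ0]

/-- the coefficient in degree one -/
theorem coeff_one_numerator {F : PowerSeries ℤ} {h : Polynomial ℤ} {D : ℕ}
    (hF : (1 - PowerSeries.X) ^ D * F = (h : PowerSeries ℤ))
    (hF0 : PowerSeries.coeff 0 F = 1) : PowerSeries.coeff 1 F = D + h.coeff 1 := by
  have h1 := congrArg (PowerSeries.coeff 1) hF
  rw [Polynomial.coeff_coe] at h1
  have h2 : ∀ D : ℕ, PowerSeries.coeff 0 ((1 - PowerSeries.X : PowerSeries ℤ) ^ D) = 1 ∧
      PowerSeries.coeff 1 ((1 - PowerSeries.X : PowerSeries ℤ) ^ D) = -(D : ℤ) := by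
    intro D
    induction D with
    | zero => simp [PowerSeries.coeff_one]
    | succ D ih =>
      rw [pow_succ, mul_sub, mul_one]
      constructor
      · rw [map_sub, ih.1]
        simp
      · rw [map_sub, ih.2]
        have h3 : PowerSeries.coeff 1 ((1 - PowerSeries.X : PowerSeries ℤ) ^ D * PowerSeries.X)
            = 1 := by
          rw [PowerSeries.coeff_succ_mul_X, ih.1]
        rw [h3]
        push_cast
        ring
  rw [PowerSeries.coeff_mul] at h1
  have h3 : Finset.HasAntidiagonal.antidiagonal 1 = {((0 : ℕ), (1 : ℕ)), (1, 0)} := by decide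
  rw [h3, Finset.sum_pair (by decide)] at h1
  simp only [(h2 D).1, (h2 D).2, hF0] at h1
  linarith

end Pool.Agent.P8H35.HS
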