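import Pool.Agent.P8H35.HS.Basic

/-!
# The Hilbert series has its only pole at one

Let every homogeneous prime ideal of `S` which does not contain all forms of positive degree miss
forms of two consecutive degrees (for a section ring this is the invertibility of the
sheaf). Then `(1 - X) ^ N * hs I` is a polynomial for every homogeneous ideal `I` and `N` large.
-/

set_option autoImplicit false

namespace Pool.Agent.P8H35.HS

open DirectSum

/-- `F` becomes a polynomial after multiplication with a power of `1 - X` -/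
def Good (F : PowerSeries ℤ) : Prop :=
  ∃ (N : ℕ) (p : Polynomial ℤ), (1 - PowerSeries.X) ^ N * F = (p : PowerSeries ℤ)

theorem good_coe (p : Polynomial ℤ) : Good (p : PowerSeries ℤ) := ⟨0, p, by simp⟩

theorem coe_one_sub : ((1 - Polynomial.X : Polynomial ℤ) : PowerSeries ℤ) = 1 - PowerSeries.X := by
  simp

theorem Good.add {F G : PowerSeries ℤ} (hF : Good F) (hG : Good G) : Good (F + G) := by
  obtain ⟨N, p, hp⟩ := hF
  obtain ⟨M, q, hq⟩ := hG
  refine ⟨N + M, (1 - Polynomial.X) ^ M * p + (1 - Polynomial.X) ^ N * q, ?_⟩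
  rw [Polynomial.coe_add, Polynomial.coe_mul, Polynomial.coe_mul, Polynomial.coe_pow,
    Polynomial.coe_pow, coe_one_sub, ← hp, ← hq]
  ring

theorem Good.coe_mul {F : PowerSeries ℤ} (hF : Good F) (q : Polynomial ℤ) :
    Good ((q : PowerSeries ℤ) * F) := by
  obtain ⟨N, p, hp⟩ := hF
  refine ⟨N, q * p, ?_⟩
  rw [Polynomial.coe_mul, ← hp]
  ring

theorem Good.X_pow_mul {F : PowerSeries ℤ} (hF : Good F) (n : ℕ) :
    Good (PowerSeries.X ^ n * F) := by
  have h1 := hF.coe_mul (Polynomial.X ^ n)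
  rwa [Polynomial.coe_pow, Polynomial.coe_X] at h1

theorem Good.of_mul {F : PowerSeries ℤ} (hF : Good ((1 - PowerSeries.X) * F)) : Good F := by
  obtain ⟨N, p, hp⟩ := hF
  exact ⟨N + 1, p, by rw [pow_succ, mul_assoc, hp]⟩

theorem Good.sub {F G : PowerSeries ℤ} (hF : Good F) (hG : Good G) : Good (F - G) := by
  have h1 := hF.add (hG.coe_mul (-1))
  rw [Polynomial.coe_neg, Polynomial.coe_one] at h1
  rwa [sub_eq_add_neg, ← neg_one_mul]

variable {k S : Type*} [Field k] [CommRing S] [Algebra k S] {𝒜 : ℕ → Submodule k S}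
  [GradedAlgebra 𝒜]

theorem hf_top (n : ℕ) : hf 𝒜 (⊤ : Ideal S) n = 0 := by
  unfold hf
  rw [show (⊤ : Ideal S).restrictScalars k = ⊤ from rfl, inf_top_eq, sub_self]

theorem hf_eq_zero {I : Ideal S} {n : ℕ} (h : ∀ x ∈ 𝒜 n, x ∈ I) : hf 𝒜 I n = 0 := by
  unfold hf
  rw [show 𝒜 n ⊓ I.restrictScalars k = 𝒜 n from inf_eq_left.2 h, sub_self]

theorem cl_of_prime {P : Ideal S} (hP : P.IsPrime) {x : S} (hx : x ∉ P) : cl P x = P := by
  ext y
  rw [mem_cl]
  exact ⟨fun h => (hP.mem_or_mem h).resolve_left hx, fun h => P.mul_mem_left _ h⟩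

/-- the Hilbert series is a rational function whose only pole is at one -/
theorem good_hs [IsNoetherianRing S] (hfin : ∀ n, FiniteDimensional k (𝒜 n))
    (hinv : ∀ P : Ideal S, P.IsPrime → P.IsHomogeneous 𝒜 → (∃ n, 0 < n ∧ ∃ x ∈ 𝒜 n, x ∉ P) →
      ∃ n, (∃ x ∈ 𝒜 n, x ∉ P) ∧ ∃ x ∈ 𝒜 (n + 1), x ∉ P)
    (I : Ideal S) (hI : I.IsHomogeneous 𝒜) : Good (hs 𝒜 I) := by
  induction I using WellFoundedGT.induction with
  | _ I ih =>
    by_cases htop : I = ⊤
    · subst htop
      have h1 : hs 𝒜 (⊤ : Ideal S) = ((0 : Polynomial ℤ) : PowerSeries ℤ) := by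
        ext n
        rw [hs, PowerSeries.coeff_mk, hf_top]
        simp
      rw [h1]
      exact good_coe _
    by_cases hall : ∀ n, 0 < n → ∀ x ∈ 𝒜 n, x ∈ I
    · have h1 : hs 𝒜 I = ((Polynomial.C (hf 𝒜 I 0) : Polynomial ℤ) : PowerSeries ℤ) := by
        ext n
        rw [hs, PowerSeries.coeff_mk, Polynomial.coeff_coe, Polynomial.coeff_C]
        split_ifs with h
        · rw [h]
        · exact hf_eq_zero (hall n (Nat.pos_of_ne_zero h))
      rw [h1]
      exact good_coe _
    by_cases hP : I.IsPrime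
    · have h1 : ∃ n, 0 < n ∧ ∃ x ∈ 𝒜 n, x ∉ I := by
        push Not at hall
        obtain ⟨n, hn, x, hx, hxI⟩ := hall
        exact ⟨n, hn, x, hx, hxI⟩
      obtain ⟨n, ⟨a, ha, haI⟩, ⟨b, hb, hbI⟩⟩ := hinv I hP hI h1
      have key : ∀ {m : ℕ} {x : S}, x ∈ 𝒜 m → x ∉ I →
          Good (hs 𝒜 I - PowerSeries.X ^ m * hs 𝒜 I) := by
        intro m x hx hxI
        have h2 := hs_sup hfin hI hx
        rw [cl_of_prime hP hxI] at h2
        rw [← h2]
        apply ih
        · exact lt_of_le_of_ne le_sup_left (fun h => hxI (by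
            rw [h]; exact Submodule.mem_sup_right (Ideal.mem_span_singleton_self x)))
        · exact hI.sup (span_homogeneous hx)
      apply Good.of_mul
      have h3 := (key hb hbI).sub ((key ha haI).X_pow_mul 1)
      have h4 : hs 𝒜 I - PowerSeries.X ^ (n + 1) * hs 𝒜 I
          - PowerSeries.X ^ 1 * (hs 𝒜 I - PowerSeries.X ^ n * hs 𝒜 I)
          = (1 - PowerSeries.X) * hs 𝒜 I := by ring
      rwa [h4] at h3
    · have h1 : ∃ a b : S, SetLike.IsHomogeneousElem 𝒜 a ∧ SetLike.IsHomogeneousElem 𝒜 b ∧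
          a * b ∈ I ∧ a ∉ I ∧ b ∉ I := by
        by_contra hcon
        push Not at hcon
        apply hP
        apply Ideal.IsHomogeneous.isPrime_of_homogeneous_mem_or_mem hI htop
        intro x y hx hy hxy
        by_contra h
        push Not at h
        exact h.2 (hcon x y hx hy hxy h.1)
      obtain ⟨a, b, ⟨m, ha⟩, -, hab, haI, hbI⟩ := h1
      have h2 := hs_sup hfin hI ha
      have h3 : hs 𝒜 I = hs 𝒜 (I ⊔ Ideal.span {a}) + PowerSeries.X ^ m * hs 𝒜 (cl I a) := by
        rw [h2]; ring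
      rw [h3]
      apply Good.add
      · apply ih
        · exact lt_of_le_of_ne le_sup_left (fun h => haI (by
            rw [h]; exact Submodule.mem_sup_right (Ideal.mem_span_singleton_self a)))
        · exact hI.sup (span_homogeneous ha)
      · apply Good.X_pow_mul
        apply ih
        · have h4 : I ≤ cl I a := fun y hy => mem_cl.2 (I.mul_mem_left _ hy)
          exact lt_of_le_of_ne h4 (fun h => hbI (by rw [h, mem_cl]; exact hab))
        · exact cl_homogeneous hI ha

end Pool.Agent.P8H35.HS
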