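import Pool.Agent.P8H35.HS.Rational

/-!
# Symmetry of the Hilbert function of an Artinian Gorenstein quotient

`J` homogeneous, `S / J` zero in large degrees, with socle spanned by the class of a form `z` of
degree `σ`. Then `hf J i = hf J (σ - i)` for `i ≤ σ` and `hf J i = 0` for `i > σ`.
-/

set_option autoImplicit false

namespace Pool.Agent.P8H35.HS

open DirectSum

variable {k S : Type*} [Field k] [CommRing S] [Algebra k S] {𝒜 : ℕ → Submodule k S}
  [GradedAlgebra 𝒜]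

/-- for a form `x` outside `J` there is a form `y` of complementary degree with `f (x y) ≠ 0` -/
theorem exists_pairing {J : Ideal S} (hJ : J.IsHomogeneous 𝒜) {N : ℕ}
    (hN : ∀ n, N ≤ n → ∀ x ∈ 𝒜 n, x ∈ J) {σ : ℕ} {z : S} (hz : z ∈ 𝒜 σ)
    (hsoc : ∀ y : S, (∀ m, 0 < m → ∀ x ∈ 𝒜 m, x * y ∈ J) → ∃ c : k, y - c • z ∈ J)
    (f : S →ₗ[k] k) (hfz : f z ≠ 0) (hfJ : ∀ x ∈ J, f x = 0) :
    ∀ d i, N ≤ i + d → ∀ x ∈ 𝒜 i, x ∉ J → i ≤ σ ∧ ∃ y ∈ 𝒜 (σ - i), f (x * y) ≠ 0 := by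
  intro d
  induction d with
  | zero =>
    intro i hi x hx hxJ
    exact absurd (hN i hi x hx) hxJ
  | succ d ih =>
    intro i hi x hx hxJ
    by_cases h : ∀ m, 0 < m → ∀ w ∈ 𝒜 m, w * x ∈ J
    · obtain ⟨c, hc⟩ := hsoc x h
      have hi' : i = σ := by
        by_contra hne
        apply hxJ
        have h1 := hJ i hc
        rw [decompose_sub, DirectSum.sub_apply, Submodule.coe_sub, comp_self hx,
          decompose_of_mem_ne 𝒜 (Submodule.smul_mem _ c hz) (Ne.symm hne), sub_zero] at h1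
        exact h1
      subst hi'
      refine ⟨le_rfl, 1, ?_, ?_⟩
      · rw [Nat.sub_self]; exact SetLike.one_mem_graded 𝒜
      · rw [mul_one]
        have h1 : f x = c * f z := by
          have h2 := hfJ _ hc
          rw [map_sub, map_smul, sub_eq_zero, smul_eq_mul] at h2
          exact h2
        rw [h1]
        apply mul_ne_zero _ hfz
        rintro rfl
        rw [zero_smul, sub_zero] at hc
        exact hxJ hc
    · push Not at h
      obtain ⟨m, hm, w, hw, hwx⟩ := h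
      obtain ⟨h1, y, hy, hfy⟩ := ih (m + i) (by omega) (w * x) (SetLike.mul_mem_graded hw hx) hwx
      refine ⟨by omega, w * y, ?_, ?_⟩
      · have h2 : σ - i = m + (σ - (m + i)) := by omega
        rw [h2]
        exact SetLike.mul_mem_graded hw hy
      · rw [show x * (w * y) = w * x * y by ring]
        exact hfy

/-- inequality between Hilbert functions from a pairing -/
theorem hf_le_of_pairing (hfin : ∀ n, FiniteDimensional k (𝒜 n)) {J : Ideal S} {i j : ℕ}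
    (f : S →ₗ[k] k) (hfJ : ∀ x ∈ J, f x = 0)
    (h : ∀ x ∈ 𝒜 i, x ∉ J → ∃ y ∈ 𝒜 j, f (x * y) ≠ 0) : hf 𝒜 J i ≤ hf 𝒜 J j := by
  have := hfin
  -- the pairing
  let T : S →ₗ[k] Module.Dual k (𝒜 j) :=
    (Module.Dual.transpose (𝒜 j).subtype ∘ₗ Module.Dual.transpose (M' := S) (R := k) LinearMap.id)
      ∘ₗ ((LinearMap.mul k S).compr₂ f)
  have hT : ∀ (x : S) (y : 𝒜 j), T x y = f (x * y) := fun x y => rfl
  have h1 := finrank_map_add T (𝒜 i)
  have h2 : 𝒜 i ⊓ LinearMap.ker T = 𝒜 i ⊓ J.restrictScalars k := by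
    apply le_antisymm
    · rintro x ⟨hx, hxT⟩
      refine ⟨hx, ?_⟩
      by_contra hxJ
      obtain ⟨y, hy, hfy⟩ := h x hx hxJ
      apply hfy
      have h3 : T x ⟨y, hy⟩ = 0 := by
        rw [show T x = 0 from hxT]; rfl
      exact h3
    · rintro x ⟨hx, hxJ⟩
      refine ⟨hx, ?_⟩
      change T x = 0
      ext y
      rw [hT]
      exact hfJ _ (J.mul_mem_right _ hxJ)
  rw [h2] at h1
  set U : Submodule k (𝒜 j) := (𝒜 j ⊓ J.restrictScalars k).comap (𝒜 j).subtype with hU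
  have h3 : (𝒜 i).map T ≤ U.dualAnnihilator := by
    rintro _ ⟨x, -, rfl⟩
    rw [Submodule.mem_dualAnnihilator]
    rintro y ⟨-, hy⟩
    rw [hT]
    exact hfJ _ (J.mul_mem_left _ hy)
  have h4 := Submodule.finrank_mono h3
  have h5 := Subspace.finrank_add_finrank_dualAnnihilator_eq U
  have h6 : Module.finrank k U = Module.finrank k (𝒜 j ⊓ J.restrictScalars k : Submodule k S) :=
    LinearEquiv.finrank_eq (Submodule.comapSubtypeEquivOfLe inf_le_left)
  unfold hf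
  have h7 : Module.finrank k ((𝒜 i).map T) ≤ Module.finrank k U.dualAnnihilator := h4
  rw [h6] at h5
  omega

/-- symmetry of the Hilbert function -/
theorem hf_symm (hfin : ∀ n, FiniteDimensional k (𝒜 n)) {J : Ideal S} (hJ : J.IsHomogeneous 𝒜)
    {N : ℕ} (hN : ∀ n, N ≤ n → ∀ x ∈ 𝒜 n, x ∈ J) {σ : ℕ} {z : S} (hz : z ∈ 𝒜 σ) (hzJ : z ∉ J)
    (hsoc : ∀ y : S, (∀ m, 0 < m → ∀ x ∈ 𝒜 m, x * y ∈ J) → ∃ c : k, y - c • z ∈ J) :
    (∀ i ≤ σ, hf 𝒜 J i = hf 𝒜 J (σ - i)) ∧ (∀ i, σ < i → hf 𝒜 J i = 0) := by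
  obtain ⟨f, hfz, hf0⟩ : ∃ f : S →ₗ[k] k, f z ≠ 0 ∧ ∀ x ∈ J, f x = 0 := by
    obtain ⟨f, h1, h2⟩ := Submodule.exists_dual_map_eq_bot_of_notMem (p := J.restrictScalars k)
      (x := z) hzJ inferInstance
    refine ⟨f, h1, fun x hx => ?_⟩
    have h3 : f x ∈ (J.restrictScalars k).map f := ⟨x, hx, rfl⟩
    rw [h2] at h3
    exact h3
  have key := exists_pairing hJ hN hz hsoc f hfz hf0
  have hle : ∀ i ≤ σ, hf 𝒜 J i ≤ hf 𝒜 J (σ - i) := by
    intro i _
    apply hf_le_of_pairing hfin f hf0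
    intro x hx hxJ
    exact (key N i (by omega) x hx hxJ).2
  refine ⟨fun i hi => le_antisymm (hle i hi) ?_, fun i hi => ?_⟩
  · have h1 := hle (σ - i) (Nat.sub_le _ _)
    rwa [Nat.sub_sub_self hi] at h1
  · apply hf_eq_zero
    intro x hx
    by_contra hxJ
    have h1 := (key N i (by omega) x hx hxJ).1
    omega

theorem hf_nonneg (hfin : ∀ n, FiniteDimensional k (𝒜 n)) (J : Ideal S) (i : ℕ) :
    0 ≤ hf 𝒜 J i := by
  have := hfin
  unfold hf
  have h1 : Module.finrank k (𝒜 i ⊓ J.restrictScalars k : Submodule k S)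
      ≤ Module.finrank k (𝒜 i) := Submodule.finrank_mono inf_le_left
  omega

end Pool.Agent.P8H35.HS
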